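import Mathlib
import Pool.Agent.R504.Mahler

set_option autoImplicit false

/-!
# Bounded second binary digit for `m = 3` (MP_96deef_nt)

For `m = 3` and all `n ≥ 1` the gap `u_3(n)` between the two lowest nonzero binary digits of
`c_3(n) = S_{2,3}(n)` is 1 or 2.

Proof. Let `F(x) = ∑ c_3(n) x^n`, so `F(x) = ((1 + x) / (1 - x))^3 F(x^2)`. There are 22 power series
`H_s` modulo 64, `H_0 = 1`, with periodic coefficients (from the first on), such that
`H_s(x) ((1 + x) / (1 - x))^3 = H_{s'}(x^2) + x H_{s''}(x^2)`. So `c_3(n)` modulo 64 is computed by an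
automaton with 22 states which reads the binary digits of `n`. For `n ≥ 1` the values are
`≡ 6, 10 (mod 16)` or `≡ 24, 40 (mod 64)`.
-/

namespace Pool.Agent.Results.MP_96deef_nt.BoundedForThree

open PowerSeries Pool.Agent.R504.Mahler

/-- `S_{k,m}(n)`, the coefficient of `x^n` in `(1 - x)^(-m) ∏_j (1 - x^(k^j))^(-(k-1)m)`; the factors
with `j > n` do not influence this coefficient and are omitted -/
noncomputable def S (k m n : ℕ) : ℤ :=
  coeff n (invOfUnit
    ((1 - X) ^ m * ∏ i ∈ Finset.range (n + 1), (1 - X ^ k ^ i) ^ ((k - 1) * m) : ℤ⟦X⟧) 1)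

/-- the odd part of an integer -/
def oddPart (z : ℤ) : ℤ := z / 2 ^ padicValInt 2 z

/-- `u_m(n) = ν_2(w - 1)`, `w` being the odd part of `c_m(n) = S_{2,m}(n)`; it is `⊤` if `w = 1` -/
noncomputable def u (m n : ℕ) : ℕ∞ := emultiplicity (2 : ℤ) (oddPart (S 2 m n) - 1)

/-- rows: the two successor states, the coefficient of `x^0`, and the coefficients of `x^n` for
`n ≥ 1`, `n ≡ 0, 1, 2, 3 (mod 4)` -/
def tabl : List (List ℕ) :=
  [[1, 2, 1, 0, 0, 0, 0], [0, 3, 1, 2, 18, 2, 18], [4, 5, 6, 6, 38, 38, 6],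
   [6, 6, 24, 24, 8, 56, 40], [4, 7, 6, 6, 54, 6, 54], [8, 9, 10, 10, 58, 10, 58],
   [6, 10, 24, 24, 24, 24, 24], [11, 12, 26, 26, 10, 26, 10], [8, 13, 10, 10, 26, 10, 26],
   [14, 5, 54, 54, 6, 54, 6], [10, 6, 40, 40, 40, 40, 40], [11, 15, 26, 26, 42, 26, 42],
   [16, 7, 38, 38, 54, 38, 54], [17, 18, 22, 22, 38, 22, 38], [14, 18, 54, 54, 38, 54, 38],
   [4, 19, 6, 6, 22, 6, 22], [16, 19, 38, 38, 22, 38, 22], [17, 5, 22, 22, 6, 22, 6],
   [20, 13, 42, 42, 26, 42, 26], [21, 15, 58, 58, 42, 58, 42], [20, 9, 42, 42, 58, 42, 58],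
   [21, 12, 58, 58, 10, 58, 10]]

def entry (s i : ℕ) : ℕ := (tabl.getD s []).getD i 0

/-- the coefficients of `H_s` -/
def a (s n : ℕ) : ℕ := if n = 0 then entry s 2 else entry s (3 + n % 4)

/-- the coefficients of `H_{s'}(x^2) + x H_{s''}(x^2)` -/
def b (s n : ℕ) : ℕ := a (entry s (n % 2)) (n / 2)

def sh (f : ℕ → ℕ) (k n : ℕ) : ℕ := if k ≤ n then f (n - k) else 0

def ok (s n : ℕ) : Prop :=
  (sh (a s) 0 n + 3 * sh (a s) 1 n + 3 * sh (a s) 2 n + sh (a s) 3 n +
    3 * sh (b s) 1 n + sh (b s) 3 n) % 64 = (sh (b s) 0 n + 3 * sh (b s) 2 n) % 64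

instance (s n : ℕ) : Decidable (ok s n) := by unfold ok; infer_instance

lemma ok_small : ∀ s < 22, ∀ n < 13, ok s n := by decide +kernel

lemma a_add (s n : ℕ) (hn : 1 ≤ n) : a s (n + 4) = a s n := by
  unfold a
  rw [if_neg (by omega), if_neg (by omega), Nat.add_mod_right]

lemma a_add8 (s n : ℕ) (hn : 1 ≤ n) : a s (n + 8) = a s n := by
  rw [show n + 8 = n + 4 + 4 by ring, a_add s _ (by omega), a_add s n hn]

lemma b_add (s n : ℕ) (hn : 2 ≤ n) : b s (n + 8) = b s n := by
  unfold b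
  rw [show (n + 8) % 2 = n % 2 by omega, show (n + 8) / 2 = n / 2 + 4 by omega,
    a_add _ _ (by omega)]

lemma ok_all (s : ℕ) (hs : s < 22) (n : ℕ) : ok s n := by
  induction n using Nat.strong_induction_on with
  | _ n ih =>
    by_cases hn : n < 13
    · exact ok_small s hs n hn
    · obtain ⟨k, rfl⟩ : ∃ k, n = k + 8 := ⟨n - 8, by omega⟩
      have h := ih k (by omega)
      unfold ok sh at h ⊢
      rw [if_pos (by omega), if_pos (by omega), if_pos (by omega), if_pos (by omega),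
        if_pos (by omega), if_pos (by omega), if_pos (by omega), if_pos (by omega)] at h ⊢
      rw [show k + 8 - 0 = (k - 0) + 8 by omega, show k + 8 - 1 = (k - 1) + 8 by omega,
        show k + 8 - 2 = (k - 2) + 8 by omega, show k + 8 - 3 = (k - 3) + 8 by omega,
        a_add8 s _ (by omega), a_add8 s _ (by omega), a_add8 s _ (by omega), a_add8 s _ (by omega),
        b_add s _ (by omega), b_add s _ (by omega), b_add s _ (by omega), b_add s _ (by omega)]
      exact h

/-- the power series `H_s` modulo 64 -/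
noncomputable def H (s : ℕ) : (ZMod 64)⟦X⟧ := PowerSeries.mk fun n => (a s n : ZMod 64)

lemma coeff_sh (f : ℕ → ℕ) (k n : ℕ) :
    coeff n (X ^ k * PowerSeries.mk fun n => (f n : ZMod 64)) = (sh f k n : ZMod 64) := by
  rw [coeff_X_pow_mul', coeff_mk]
  unfold sh
  split_ifs <;> simp

lemma isStep (s : ℕ) (hs : s < 22) : IsStep 3 (H s) (H (entry s 0)) (H (entry s 1)) := by
  unfold IsStep
  have hB : expand 2 two_ne_zero (H (entry s 0)) + X * expand 2 two_ne_zero (H (entry s 1)) =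
      PowerSeries.mk fun n => (b s n : ZMod 64) := by
    ext n
    rcases Nat.even_or_odd' n with ⟨k, rfl | rfl⟩
    · rw [coeff_even, H, coeff_mk, coeff_mk]
      unfold b
      rw [show 2 * k % 2 = 0 by omega, show 2 * k / 2 = k by omega]
    · rw [coeff_odd, H, coeff_mk, coeff_mk]
      unfold b
      rw [show (2 * k + 1) % 2 = 1 by omega, show (2 * k + 1) / 2 = k by omega]
  rw [hB]
  set B : (ZMod 64)⟦X⟧ := PowerSeries.mk fun n => (b s n : ZMod 64)
  have h1 : (X ^ 0 * H s + C 3 * (X ^ 1 * H s) + C 3 * (X ^ 2 * H s) + X ^ 3 * H s +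
      C 3 * (X ^ 1 * B) + X ^ 3 * B) = X ^ 0 * B + C 3 * (X ^ 2 * B) := by
    ext n
    simp only [map_add, coeff_C_mul]
    have h2 : ∀ k, coeff n (X ^ k * H s) = (sh (a s) k n : ZMod 64) := fun k => coeff_sh _ _ _
    have h3 : ∀ k, coeff n (X ^ k * B) = (sh (b s) k n : ZMod 64) := fun k => coeff_sh _ _ _
    rw [h2, h2, h2, h2, h3, h3, h3, h3]
    have h4 := ok_all s hs n
    unfold ok at h4
    have h5 := (ZMod.natCast_eq_natCast_iff _ _ 64).2 h4
    push_cast at h5
    linear_combination h5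
  have hC : (C 3 : (ZMod 64)⟦X⟧) = 3 := rfl
  rw [hC] at h1
  linear_combination h1

lemma entry_lt : ∀ s < 22, ∀ i < 2, entry s i < 22 := by decide +kernel

lemma entry_ge : ∀ s < 22, 2 ≤ s → ∀ i < 2, 2 ≤ entry s i := by decide +kernel

/-- the possible residues of `c_3(n)`, `n ≥ 1`, modulo 64 -/
def good (z : ZMod 64) : Prop :=
  z = 6 ∨ z = 10 ∨ z = 22 ∨ z = 24 ∨ z = 26 ∨ z = 38 ∨ z = 40 ∨ z = 42 ∨ z = 54 ∨ z = 58

instance (z : ZMod 64) : Decidable (good z) := by unfold good; infer_instance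

lemma good_zero : ∀ s < 22, 2 ≤ s → good ((a s 0 : ℕ) : ZMod 64) := by decide +kernel

lemma main (n : ℕ) : ∀ s < 22, (2 ≤ s ∨ 1 ≤ n) → good (coeff n (H s * FΛ (ZMod 64) 3)) := by
  induction n using Nat.strong_induction_on with
  | _ n ih =>
    intro s hs hor
    rcases Nat.eq_zero_or_pos n with hn | hn
    · subst hn
      have h2 : 2 ≤ s := by omega
      rw [coeff_zero_mul, H, coeff_mk]
      exact good_zero s hs h2
    · rcases Nat.even_or_odd' n with ⟨k, hk | hk⟩
      · rw [hk, coeff_step_even (isStep s hs)]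
        exact ih k (by omega) _ (entry_lt s hs 0 (by omega)) (Or.inr (by omega))
      · rw [hk, coeff_step_odd (isStep s hs)]
        apply ih k (by omega) _ (entry_lt s hs 1 (by omega))
        rcases Nat.lt_or_ge s 2 with h | h
        · left
          have : s = 0 ∨ s = 1 := by omega
          rcases this with rfl | rfl <;> decide +kernel
        · exact Or.inl (entry_ge s hs h 1 (by omega))

lemma H_zero : H 0 = 1 := by
  ext n
  rw [H, coeff_mk, coeff_one]
  unfold a
  split_ifs with h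
  · have : entry 0 2 = 1 := by decide +kernel
    rw [this]; simp
  · have h2 : ∀ i < 4, entry 0 (3 + i) = 0 := by decide +kernel
    rw [h2 _ (Nat.mod_lt _ (by norm_num))]; simp

lemma S_eq (m n : ℕ) : S 2 m n = c m n := by
  unfold S c
  simp

lemma oddPart_eq (e : ℕ) (w : ℤ) (hw : Odd w) : oddPart (2 ^ e * w) = w := by
  have hw0 : w ≠ 0 := by rintro rfl; simp at hw
  have h1 : padicValInt 2 (2 ^ e * w) = e := by
    have := Fact.mk Nat.prime_two
    rw [padicValInt.mul (by positivity) hw0]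
    have h2 : padicValInt 2 w = 0 := by
      apply padicValInt.eq_zero_of_not_dvd
      have := Int.odd_iff.1 hw
      push_cast
      omega
    have h3 : padicValInt 2 (2 ^ e) = e := by
      unfold padicValInt
      rw [Int.natAbs_pow]
      exact padicValNat.prime_pow e
    rw [h2, h3, add_zero]
  unfold oddPart
  rw [h1, Int.mul_ediv_cancel_left _ (by positivity)]

lemma emult_one (z : ℤ) (h : z % 4 = 2) : emultiplicity (2 : ℤ) z = 1 := by
  have : z = 2 ^ 1 * (z / 2) := by omega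
  rw [this]
  have h2 := emultiplicity_eq_coe (a := (2 : ℤ)) (b := 2 ^ 1 * (z / 2)) (n := 1)
  exact_mod_cast h2.2 ⟨Dvd.intro _ rfl, by norm_num; omega⟩

lemma emult_two (z : ℤ) (h : z % 8 = 4) : emultiplicity (2 : ℤ) z = 2 := by
  have h2 := emultiplicity_eq_coe (a := (2 : ℤ)) (b := z) (n := 2)
  exact_mod_cast h2.2 ⟨by norm_num; omega, by norm_num; omega⟩

lemma u_val (n : ℕ) (hn : 1 ≤ n) : u 3 n = 1 ∨ u 3 n = 2 := by
  have h1 := main n 0 (by norm_num) (Or.inr hn)
  rw [H_zero, one_mul, coeff_FΛ] at h1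
  unfold u
  rw [S_eq]
  set z := c 3 n with hz
  have h2 : z % 16 = 6 ∨ z % 16 = 10 ∨ z % 64 = 24 ∨ z % 64 = 40 := by
    have key : ∀ r : ℤ, (z : ZMod 64) = ((r : ℤ) : ZMod 64) → z % 64 = r % 64 := by
      intro r hr
      exact (ZMod.intCast_eq_intCast_iff z r 64).1 hr
    unfold good at h1
    rcases h1 with h | h | h | h | h | h | h | h | h | h
    · have := key 6 (by rw [h]; rfl); omega
    · have := key 10 (by rw [h]; rfl); omega
    · have := key 22 (by rw [h]; rfl); omega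
    · have := key 24 (by rw [h]; rfl); omega
    · have := key 26 (by rw [h]; rfl); omega
    · have := key 38 (by rw [h]; rfl); omega
    · have := key 40 (by rw [h]; rfl); omega
    · have := key 42 (by rw [h]; rfl); omega
    · have := key 54 (by rw [h]; rfl); omega
    · have := key 58 (by rw [h]; rfl); omega
  rcases h2 with h | h | h | h
  · have e1 : z = 2 ^ 1 * (z / 2) := by omega
    rw [e1, oddPart_eq 1 _ (by rw [Int.odd_iff]; omega)]
    exact Or.inl (emult_one _ (by omega))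
  · have e1 : z = 2 ^ 1 * (z / 2) := by omega
    rw [e1, oddPart_eq 1 _ (by rw [Int.odd_iff]; omega)]
    exact Or.inr (emult_two _ (by omega))
  · have e1 : z = 2 ^ 3 * (z / 8) := by omega
    rw [e1, oddPart_eq 3 _ (by rw [Int.odd_iff]; omega)]
    exact Or.inl (emult_one _ (by omega))
  · have e1 : z = 2 ^ 3 * (z / 8) := by omega
    rw [e1, oddPart_eq 3 _ (by rw [Int.odd_iff]; omega)]
    exact Or.inr (emult_two _ (by omega))

theorem result : (∀ n, 1 ≤ n → u 3 n = 1 ∨ u 3 n = 2) ∧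
    ∃ m, 1 ≤ m ∧ {x : ℕ∞ | ∃ n, 1 ≤ n ∧ u m n = x}.Finite := by
  refine ⟨u_val, 3, by norm_num, ?_⟩
  apply Set.Finite.subset (Set.toFinite {(1 : ℕ∞), 2})
  rintro x ⟨n, hn, rfl⟩
  rcases u_val n hn with h | h <;> rw [h] <;> simp

end Pool.Agent.Results.MP_96deef_nt.BoundedForThree
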